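import Pool.Agent.MP_c69980_ag.H43.Spec7

/-!
The final contradiction, by the product formula.
-/

set_option autoImplicit false

namespace Pool.Agent.MP_c69980_ag.H43

open MvPolynomial H60 Finset Filter Pool.Agent.MP_f3836a_nt.PK

section Loc
variable {L : Type} [Field L] [Algebra ℂ L] (h : FFd L) (P : Pl L)
include h

lemma FinF_pow (x : L) (n : ℕ) : lam P (x ^ n) = n * lam P x := by
  by_cases e : x = 0
  · rcases n with _ | n
    · simp [lam, PlB.ord_one h.a]
    · simp [e, lam_zero]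
  · simp only [lam, PlB.ord_pow h.a P x e n]
    rcases le_total 0 (P.ord x) with a | a
    · have : 0 ≤ (n : ℤ) * P.ord x := by positivity
      rw [Int.toNat_eq_zero.2 (by omega), Int.toNat_eq_zero.2 (by omega), mul_zero]
    · obtain ⟨j, hj⟩ := Int.eq_ofNat_of_zero_le (neg_nonneg.2 a)
      rw [← mul_neg, hj, ← Nat.cast_mul, Int.toNat_natCast, Int.toNat_natCast]

lemma FinF_sum {ι : Type} (s : Finset ι) (f : ι → L) (B : ℕ) (H : ∀ i ∈ s, lam P (f i) ≤ B) :
    lam P (∑ i ∈ s, f i) ≤ B := by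
  classical
  induction s using Finset.induction_on with
  | empty => simp [lam_zero]
  | insert i s hi ih =>
    rw [sum_insert hi]
    exact (h.lam_add P _ _).trans
      (max_le (H i (mem_insert_self _ _)) (ih fun j hj => H j (mem_insert_of_mem hj)))

/-- The poles of a root of a monic equation. -/
lemma FinF_root {x : L} {d B : ℕ} {a : ℕ → L} (e : x ^ d + ∑ i ∈ range d, a i * x ^ i = 0)
    (H : ∀ i ∈ range d, lam P (a i) ≤ B) : lam P x ≤ B := by
  by_contra hx
  rw [not_le] at hx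
  rcases d with _ | d
  · simp at e
  have e1 : lam P (x ^ (d + 1)) ≤ B + d * lam P x := by
    rw [eq_neg_of_add_eq_zero_left e, h.lam_neg]
    refine FinF_sum h P _ _ _ fun i hi => (h.lam_mul P _ _).trans (add_le_add (H i hi) ?_)
    rw [FinF_pow h]
    exact Nat.mul_le_mul_right _ (Nat.lt_succ_iff.1 (mem_range.1 hi))
  rw [FinF_pow h, add_mul, one_mul] at e1
  omega

omit h in
lemma FinF_mem {ι : Type} {x : ι → L} (hx : ∀ i, x i ∈ P.V) (F : MvPolynomial ι ℂ) :
    aeval x F ∈ P.V := by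
  induction F using MvPolynomial.induction_on with
  | C c => rw [aeval_C]; exact P.const c
  | add p q hp hq => rw [map_add]; exact add_mem hp hq
  | mul_X p i hp => rw [map_mul, aeval_X]; exact mul_mem hp (hx i)

variable {t M : ℕ} {w : Fin M → Option (Fin t)} {κ : KD M t} {k : Subfield ℂ} {S : Set (Pl L)}
  {y : Fin M → L} {γ : L}

/-- The poles at a bad place. -/
lemma FinF_bad (hκ : κ.Ok k) (G : GFF w κ S y γ) {β : Cht M t} (hβ : Ch w β y)
    (hP : BadP κ β y P) (c : Fin M) :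
    lam P (γ * y c) ≤ lam P (aeval (co β y) (dh κ.Q : CP M t))⁻¹ := by
  refine FinF_root h P (G.eq c) fun i _ => ?_
  rw [← div_div_div_cancel_right₀ (pow_ne_zero κ.e (hβ none).2), ← eval_dh (hκ.hP c i) β,
    ← eval_dh hκ.hQ β, div_eq_mul_inv]
  refine (h.lam_mul P _ _).trans ?_
  rw [(h.lam_eq_zero P _).2 (FinF_mem P hP.1 _), zero_add]

omit P in
/-- The degree of `γ * y c`. -/
lemma FinF_deg (hκ : κ.Ok k) (G : GFF w κ S y γ) (c : Fin M) {N τ : ℕ}
    (h1 : ∀ i ∈ range κ.d, ∀ s : Finset (Pl L), ↑s ⊆ S →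
      N * ∑ P ∈ s, lam P (aeval y (κ.Pc c i) / aeval y κ.Q) ≤ τ)
    (h2 : ∀ β : Cht M t, Ch w β y → ∀ s : Finset (Pl L), ↑s ⊆ {P | P ∉ S ∧ BadP κ β y P} →
      N * ∑ P ∈ s, lam P (aeval (co β y) (dh κ.Q : CP M t))⁻¹ ≤ τ) :
    N * deg (γ * y c) ≤ (κ.d + Fintype.card (Cht M t)) * τ := by
  classical
  rw [deg, finsum_eq_sum _ (h.lam_fin _)]
  generalize (h.lam_fin (γ * y c)).toFinset = T
  have key : ∀ P : Pl L, lam P (γ * y c) ≤
      ∑ i ∈ range κ.d, (if P ∈ S then lam P (aeval y (κ.Pc c i) / aeval y κ.Q) else 0) +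
      ∑ β : Cht M t, if Ch w β y ∧ P ∉ S ∧ BadP κ β y P then
        lam P (aeval (co β y) (dh κ.Q : CP M t))⁻¹ else 0 := fun P => by
    by_cases hP : P ∈ S
    · refine le_add_right ?_
      simp only [if_pos hP]
      exact FinF_root h P (G.eq c) fun i hi => single_le_sum
        (f := fun i => lam P (aeval y (κ.Pc c i) / aeval y κ.Q)) (fun _ _ => Nat.zero_le _) hi
    · rcases G.bad P hP with a | ⟨β, a, b⟩
      · rw [(h.lam_eq_zero P _).2 (a c)]; exact Nat.zero_le _
      · refine le_add_left (le_trans ?_ (single_le_sum (fun _ _ => Nat.zero_le _) (mem_univ β)))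
        rw [if_pos ⟨a, hP, b⟩]
        exact FinF_bad h P hκ G a b c
  refine (Nat.mul_le_mul_left N (sum_le_sum fun P _ => key P)).trans ?_
  rw [sum_add_distrib, mul_add, add_mul, sum_comm, sum_comm (s := T), mul_sum, mul_sum]
  refine add_le_add ?_ ?_
  · refine (sum_le_card_nsmul _ _ τ fun i hi => ?_).trans (by simp)
    rw [← sum_filter]
    exact h1 i hi _ fun P hP => (mem_filter.1 hP).2
  · refine (sum_le_card_nsmul _ _ τ fun β _ => ?_).trans (by simp)
    rw [← sum_filter]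
    by_cases hβ : Ch w β y
    · exact h2 β hβ _ fun P hP => (mem_filter.1 hP).2.2
    · simp [hβ]

omit P in
lemma FinF_ht (g0 : γ ≠ 0) {N B : ℕ} (H : ∀ c, N * deg (γ * y c) ≤ B) :
    N * ht y ≤ M * (M * (B + B)) := by
  rw [ht, mul_sum]
  refine (sum_le_card_nsmul _ _ (M * (B + B)) fun c _ => ?_).trans (by simp)
  rw [mul_sum]
  refine (sum_le_card_nsmul _ _ (B + B) fun b _ => ?_).trans (by simp)
  rw [← mul_div_mul_left _ _ g0]
  refine (Nat.mul_le_mul_left N (h.deg_div _ _)).trans ?_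
  rw [mul_add]
  exact add_le_add (H c) (H b)

end Loc

theorem sFinF : SFinF := by
  intro t a M w Θ PP k L _ _ U D S m χ y g κ γ sq hκ gf _ h1 h2
  obtain ⟨C, hC⟩ : ∃ C, C = κ.d + Fintype.card (Cht M t) := ⟨_, rfl⟩
  obtain ⟨N, hN⟩ : ∃ N, N = M * (M * (C + C)) + 1 := ⟨_, rfl⟩
  have a1 := eventually_all.2 fun c : Fin M => (eventually_all_finset (range κ.d)).2
    fun i _ => h1 c i N
  have a2 : ∀ᶠ n in U, ∀ β : Cht M t, Ch w β (y n) → ∀ s : Finset (Pl (L n)),
      ↑s ⊆ {P | P ∉ S n ∧ BadP κ β (y n) P} →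
      N * ∑ P ∈ s, lam P (aeval (co β (y n)) (dh κ.Q : CP M t))⁻¹ ≤ ht (y n) :=
    eventually_all.2 fun β => by
      by_cases e : ∀ᶠ n in U, Ch w β (y n)
      · exact (h2 β e N).mono fun n hn _ => hn
      · exact (Ultrafilter.eventually_not.2 e).mono fun n hn a => absurd a hn
  obtain ⟨n, ⟨b1, b2⟩, b3⟩ := ((a1.and a2).and (sq.lo 1)).exists
  have ff := (sq.cd n).ff
  have := FinF_ht ff (gf n).ne fun c => FinF_deg ff hκ (gf n) c (b1 c) b2
  rw [← hC, hN, add_mul, one_mul, ← add_mul, ← mul_assoc M, ← mul_assoc M, ← mul_assoc] at this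
  dsimp only at b3 this
  omega

end Pool.Agent.MP_c69980_ag.H43
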