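import Pool.Agent.MP_c69980_ag.H43.Spec10
import Pool.Agent.MP_c69980_ag.S58.Iit

/-!
The smallest algebraic foliation that contains a vector field.
-/

set_option autoImplicit false

namespace Pool.Agent.MP_c69980_ag.H43

open H60 Finset IntermediateField

/-- The constants of a derivation. -/
lemma leafKer {K : Type} [Field K] [Algebra ℂ K] (D : Derivation ℂ K K) :
    ∃ F : IntermediateField ℂ K, ∀ x, x ∈ F ↔ D x = 0 :=
  ⟨{ carrier := {x | D x = 0}
     mul_mem' := fun {a b} (h : D a = 0) (h' : D b = 0) => by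
       show D (a * b) = 0
       simp [h, h']
     add_mem' := fun {a b} (h : D a = 0) (h' : D b = 0) => by
       show D (a + b) = 0
       simp [h, h']
     algebraMap_mem' := fun c => D.map_algebraMap c
     inv_mem' := fun a (h : D a = 0) => by
       show D a⁻¹ = 0
       simp [Derivation.leibniz_inv, h] }, fun _ => Iff.rfl⟩

theorem sLeaf (h : SLin) : SLeaf := by
  intro t a M w Θ PP K _ _ u F₀ r lam₀ E f₀ c₀ gk bx hc c0
  classical
  let γ : Fin (r + 1) → Fin (t + a) → K := fun l i => algebraMap ℂ K (lam₀ l i)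
  have γi : LinearIndependent K γ := (linearIndependent_algebraMap_comp_iff (S := K)).2 bx.ind
  let cb := Fintype.linearCombination K E
  let vl := Fintype.linearCombination K γ
  have cbx : ∀ v x, cb v x = ∑ l, v l * E l x := fun v x => tankSum _ _ _
  have inj : ∀ v, cb v = 0 → v = 0 := fun v hv => by_contra fun e =>
    bx.det (Matrix.exists_vecMul_eq_zero_iff.1 ⟨v, e, funext fun i =>
      (cbx v (f₀ i)).symm.trans (DFunLike.congr_fun hv (f₀ i))⟩)
  have vinj : ∀ v, vl v = 0 → v = 0 := fun v hv =>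
    funext (Fintype.linearIndependent_iff.1 γi v hv)
  have act : ∀ v, Vel w PP (cb v) u (vl v) := fun v β hβ x => by
    simp only [cb, vl, Fintype.linearCombination_apply, tankSum, tankVfSum, bx.vel _ β hβ, γ]
  obtain ⟨F, F1⟩ := leafKer (cb c₀)
  have le : F₀ ≤ F := fun x hx => (F1 x).2 (by simp [cbx, (bx.cst x).1 hx])
  have EF : ∀ j, ∀ x ∈ F, E j x ∈ F := fun j x hx => (F1 _).2 (by
    have := congrArg (E j) ((F1 x).1 hx)
    rw [cbx, map_sum, map_zero] at this
    rw [cbx, ← this]
    exact sum_congr rfl fun l _ => by simp [(bx.cst _).1 (hc l), bx.com l j])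
  have al : Algebra.IsAlgebraic (Algebra.adjoin F (rat u)) K := ⟨fun x =>
    ((isAlgebraic_adjoin_iff_top.1 bx.hf).1 x).tower_top_of_subalgebra_le
      (B := (Algebra.adjoin F (rat u)).restrictScalars ℂ) (A := Algebra.adjoin ℂ (rat u))
      (Algebra.adjoin_le (Algebra.subset_adjoin (R := F)))⟩
  obtain ⟨s, hs⟩ := Cardinal.lt_aleph0.1
    ((Algebra.IsAlgebraic.trdeg_le_cardinalMk F (rat u)).trans_lt (rat_fin u).lt_aleph0)
  obtain ⟨f, f1, hf⟩ := iitTb _ al hs
  obtain _ | m := s
  · exact (c0 (inj _ (iitExt hf (fun x hx => (F1 x).1 hx) fun i => i.elim0))).elim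
  have : ∀ l, ∃ v, (∀ x ∈ F, cb v x = 0) ∧ ∀ i, cb v (f i) = if l = i then 1 else 0 := fun l => by
    obtain ⟨D, D1, D2⟩ := iitEx hf fun i => if l = i then 1 else 0
    obtain ⟨c, hc⟩ := iitSpan bx.det D
    obtain rfl : D = cb c := sub_eq_zero.1 (iitExt bx.tb (fun x hx => by
      simp [cbx, D1 x (le hx), (bx.cst x).1 hx]) hc)
    exact ⟨c, D1, D2⟩
  choose p p1 p2 using this
  have sm : ∀ (q : Fin (m + 1) → Fin (r + 1) → K) (c : Fin (m + 1) → K) x,
      cb (∑ l, c l • q l) x = ∑ l, c l * cb (q l) x := fun q c x => by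
    simp only [map_sum, map_smul, tankSum]
  obtain ⟨J', B, -, b1⟩ := (h K ⊤).2 _ _ p (Fintype.linearIndependent_iff.2 fun c hc i => by
    simpa [hc, p2] using (sm p c (f i)).symm) fun _ _ => trivial
  obtain ⟨q, q1, q2⟩ : ∃ q : Fin (m + 1) → Fin (r + 1) → K, (∀ l, ∀ x ∈ F, cb (q l) x = 0) ∧
      ∀ j i, q j (J' i) = if j = i then 1 else 0 :=
    ⟨fun j => ∑ l, B j l • p l, fun l x hx => by simp [tankSum, p1 _ x hx], fun j i =>
      (Finset.sum_apply _ _ _).trans (b1 j i)⟩
  have qF : ∀ j k, q j k ∈ F := fun j => (h K F.toSubfield).1 (Fin (r + 1)) (Fin (m + 1) ⊕ F)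
    (Sum.elim (fun i k => if k = J' i then 1 else 0) fun x k => E k x)
    (Sum.elim (fun i => if j = i then 1 else 0) 0) (q j)
    (by
      rintro (i | x) k
      · simp only [Sum.elim_inl]; split_ifs; exacts [one_mem _, zero_mem _]
      · exact EF k x x.2)
    (by
      rintro (i | x)
      · simp only [Sum.elim_inl]; split_ifs; exacts [one_mem _, zero_mem _]
      · exact zero_mem _)
    (by
      rintro (i | x)
      · simp [q2]
      · exact (tankSum _ _ _).symm.trans (q1 j x x.2))
    fun v hv => by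
      have e : v = ∑ l, cb v (f l) • p l := sub_eq_zero.1 (inj _ (iitExt hf (fun x hx => by
        rw [map_sub, Derivation.sub_apply, sm]
        simp [p1 _ x hx, show cb v x = 0 from (tankSum _ _ _).trans (hv (.inr ⟨x, hx⟩))])
        fun i => by rw [map_sub, Derivation.sub_apply, sm]; simp [p2]))
      have e1 : Matrix.of B * Matrix.of (fun l i => p l (J' i)) = 1 := Matrix.ext b1
      have e2 : Matrix.vecMul (fun l => cb v (f l)) (Matrix.of fun l i => p l (J' i)) = 0 :=
        funext fun i => by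
          have := hv (.inl i)
          simp only [Sum.elim_inl, mul_ite, mul_one, mul_zero, sum_ite_eq', mem_univ, if_true]
            at this
          rw [e, Finset.sum_apply] at this
          exact this
      have e3 := congrArg (Matrix.vecMul · (Matrix.of B)) e2
      simp only [Matrix.vecMul_vecMul, mul_eq_one_comm.1 e1, Matrix.vecMul_one,
        Matrix.zero_vecMul] at e3
      rw [e]
      simp [congrFun e3]
  obtain ⟨lam, l1, l2⟩ := gk.rig K u F _ (fun l => vl (q l)) (fun l => cb (q l)) bx.on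
    (fun l i => by
      simp only [vl, Fintype.linearCombination_apply, Finset.sum_apply]
      exact sum_mem fun j _ => mul_mem (qF l j) (F.algebraMap_mem _))
    (Fintype.linearIndependent_iff.2 fun c hc i => by
      simp only [← map_smul, ← map_sum] at hc
      simpa [Finset.sum_apply, q2] using congrFun (vinj _ hc) (J' i))
    q1 (fun l => act _) fun x _ hx => by
      have := hx.cardinalMk_le_trdeg
      rw [hs, Cardinal.mk_fin, Nat.cast_le] at this
      omega
  have key : ∀ l, ∃ e : Fin (r + 1) → ℂ,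
      (vl (fun k => algebraMap ℂ K (e k)) = fun i => algebraMap ℂ K (lam l i)) ∧
      ∀ x ∈ F, cb (fun k => algebraMap ℂ K (e k)) x = 0 := by
    intro l
    obtain ⟨c, hc⟩ := (Submodule.mem_span_range_iff_exists_fun K).1 (l2 l)
    simp only [← map_smul, ← map_sum] at hc
    have vx : ∀ v x, vl v x = ∑ i, v i * γ i x := fun v x => by
      simp only [vl, Fintype.linearCombination_apply, Finset.sum_apply, Pi.smul_apply, smul_eq_mul]
    choose e he using (h K (algebraMap ℂ K).fieldRange).1 (Fin (r + 1)) (Fin (t + a))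
      (fun x i => γ i x) (fun x => algebraMap ℂ K (lam l x)) (∑ j, c j • q j)
      (fun _ _ => ⟨_, rfl⟩) (fun _ => ⟨_, rfl⟩) (fun x => (vx _ x).symm.trans (congrFun hc x))
      fun v hv => vinj v (funext fun x => (vx v x).trans (hv x))
    refine ⟨e, ?_⟩
    rw [show (fun k => algebraMap ℂ K (e k)) = ∑ j, c j • q j from funext he]
    exact ⟨hc, fun x hx => by simp [tankSum, q1 _ x hx]⟩
  choose e k1 k2 using key
  let v : Fin (m + 1) → Fin (r + 1) → K := fun l k => algebraMap ℂ K (e l k)
  have cv : ∀ l x, cb (v l) x = ∑ k, e l k • E k x := fun l x => by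
    simp only [cbx, Algebra.smul_def, v]
  have dt : (Matrix.of fun l l' => cb (v l) (f l')).det ≠ 0 := fun e => by
    obtain ⟨c, c0, c1⟩ := Matrix.exists_vecMul_eq_zero_iff.2 e
    have := congrArg vl (inj (∑ l, c l • v l) (iitExt hf
      (fun x hx => by simp [tankSum, v, k2 _ x hx]) fun i => (sm _ _ _).trans (congrFun c1 i)))
    simp only [map_sum, map_smul, v, k1, map_zero] at this
    exact c0 (funext (Fintype.linearIndependent_iff.1
      ((linearIndependent_algebraMap_comp_iff (S := K)).2 l1) c this))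
  refine ⟨F, m, lam, fun l => cb (v l), f, ⟨bx.on, bx.hf, bx.fg, l1, fun l => k1 l ▸ act _,
    fun x => ⟨fun hx l => k2 l x hx, fun hx => ?_⟩, fun l l' x => ?_, f1, hf, dt⟩, le,
    fun x => cbx c₀ x ▸ F1 x, fun l => ⟨e l, cv l⟩⟩
  · obtain ⟨c, hc⟩ := iitSpan dt (cb c₀)
    have := DFunLike.congr_fun (iitExt hf (fun x hx => by
      simp [tankSum, (F1 x).1 hx, v, k2 _ x hx]) hc) x
    rw [F1]
    simpa [tankSum, hx] using this
  · simp only [cv, map_sum, Derivation.map_smul, smul_sum]
    rw [sum_comm]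
    exact sum_congr rfl fun k _ => sum_congr rfl fun k' _ => by rw [smul_comm, bx.com]

end Pool.Agent.MP_c69980_ag.H43
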