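import Pool.Agent.MP_c69980_ag.H43.Spec2

/-!
The bracket of derivations, and the structure of the charts.
-/

set_option autoImplicit false

namespace Pool.Agent.MP_c69980_ag.H43

open MvPolynomial H60 Finset Filter Topology

variable {t a M : ℕ} {w : Fin M → Option (Fin t)} {Θ : Pt t a → Fin M → ℂ} {PP : PT M t a}
  {k : Subfield ℂ} {β : Cht M t} {p v : Pt t a} {D : Der}

lemma br_diff (hol : Differentiable ℂ Θ) (h : Ch w β (Θ p)) (x : CI M t) :
    DifferentiableAt ℂ (fun q => co β (Θ q) x) p := by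
  simp only [co, div_eq_mul_inv]
  exact (differentiableAt_pi.1 (hol p) _).mul ((differentiableAt_pi.1 (hol p) _).inv (h _).2)

lemma br_eval {ι E : Type} [NormedAddCommGroup E] [NormedSpace ℂ E] {g : E → ι → ℂ} {p : E}
    (hg : ∀ i, DifferentiableAt ℂ (fun q => g q i) p) {Q : MvPolynomial ι ℂ} (hQ : Cf k Q) :
    DifferentiableAt ℂ (fun q => eval (g q) Q) p ∧ ∀ (D : Der) (v : E), Kill k D →
      (∀ i, D (g p i) = fderiv ℂ (fun q => g q i) p v) →
      D (eval (g p) Q) = fderiv ℂ (fun q => eval (g q) Q) p v := by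
  obtain ⟨P, rfl⟩ := cf_iff.1 hQ
  clear hQ
  induction P using MvPolynomial.induction_on with
  | C c => exact ⟨by simp, fun D v hD _ => by simp [hD _ c.2]⟩
  | add P Q a b =>
    simp only [map_add]
    exact ⟨a.1.add b.1, fun D v hD H => by
      rw [fderiv_fun_add a.1 b.1, a.2 D v hD H, b.2 D v hD H]; rfl⟩
  | mul_X P i a =>
    simp only [map_mul, map_X, eval_X]
    exact ⟨a.1.mul (hg i), fun D v hD H => by
      rw [fderiv_fun_mul a.1 (hg i), Derivation.leibniz, a.2 D v hD H, H]; rfl⟩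

theorem sBr : SBr := by
  intro t a M w Θ PP k g der cf D D' p v v' hD hD' h h'
  obtain ⟨β, hβ⟩ := exists_ch (g.blk p)
  refine (tan_iff g.hol der hβ).2 fun x => ?_
  have ev := fun i => br_eval (g := fun q => co β (Θ q)) (br_diff g.hol hβ) (cf β i x)
  have nb : ∀ᶠ q in 𝓝 p, Ch w β (Θ q) := eventually_all.2 fun o =>
    ((differentiableAt_pi.1 (g.hol p) _).continuousAt.eventually_ne (hβ o).2).mono
      fun q hq => ⟨(hβ o).1, hq⟩
  have sy := second_derivative_symmetric_of_eventually (f := fun q => co β (Θ q) x)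
    (nb.mono fun q hq => (br_diff g.hol hq x).hasFDerivAt.congr_fderiv
      (ContinuousLinearMap.ext fun u => (der β q u x hq).trans (by simp [vf_eq, mul_comm])))
    (HasFDerivAt.fun_sum (u := univ) fun i _ => (ev i).1.hasFDerivAt.smul_const
      (ContinuousLinearMap.proj i : Pt t a →L[ℂ] ℂ)) v v'
  simp only [_root_.sum_apply, ContinuousLinearMap.smulRight_apply,
    _root_.smul_apply, ContinuousLinearMap.proj_apply, smul_eq_mul] at sy
  rw [Derivation.commutator_apply, (tan_iff g.hol der hβ).1 h, (tan_iff g.hol der hβ).1 h']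
  simp only [vf_eq, map_sum, Derivation.leibniz, smul_eq_mul, sum_add_distrib, sub_mul,
    sum_sub_distrib, fun i => (ev i).2 D v hD fun y => h _ _ (hβ y.2).2,
    fun i => (ev i).2 D' v' hD' fun y => h' _ _ (hβ y.2).2]
  simp only [mul_comm] at sy ⊢
  linear_combination sy

lemma nrm_u (s : Fin t → ℂ) (o : Option (Fin t)) :
    o.elim 1 (fun j => Complex.exp (s j)) ≠ 0 := by
  cases o
  exacts [one_ne_zero, Complex.exp_ne_zero _]

lemma nrm_inT {p q : Pt t a} (h : ∀ i, p (Fin.natAdd t i) = q (Fin.natAdd t i)) :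
    ∃ s, q = p + inT a s := ⟨fun j => (q - p) (Fin.castAdd a j), funext fun i => by
  refine Fin.addCases (fun j => ?_) (fun j => ?_) i <;> simp [inT, h]⟩

lemma nrm_ch (g : GA1 w Θ) (h : Ch w β (Θ p)) (s : Fin t → ℂ) : Ch w β (Θ (p + inT a s)) :=
  fun o => ⟨(h o).1, by rw [g.act]; exact mul_ne_zero (nrm_u s _) (h o).2⟩

lemma nrm_co (g : GA1 w Θ) (h : Ch w β (Θ p)) (s : Fin t → ℂ) (q : Pt t a) (x : CI M t) :
    co β (Θ (q + inT a s)) x = (w x.1).elim 1 (fun j => Complex.exp (s j)) /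
      x.2.elim 1 (fun j => Complex.exp (s j)) * co β (Θ q) x := by
  simp only [co, g.act, (h _).1, mul_div_mul_comm]

lemma nrm_ex (h : Ch w β (Θ p)) : ∃ s : Fin t → ℂ, ∀ o : Option (Fin t),
    o.elim 1 (fun j => Complex.exp (s j)) = Θ p (β none) / Θ p (β o) :=
  ⟨fun j => Complex.log (Θ p (β none) / Θ p (β (some j))), fun o => by
    cases o
    exacts [(div_self (h _).2).symm, Complex.exp_log (div_ne_zero (h _).2 (h _).2)]⟩

lemma nrm_xc (g : GA1 w Θ) (h : Ch w β (Θ p)) {s : Fin t → ℂ} (hs : ∀ o : Option (Fin t),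
    o.elim 1 (fun j => Complex.exp (s j)) = Θ p (β none) / Θ p (β o)) :
    co β (Θ (p + inT a s)) = xc w β (Θ p) := funext fun x => by
  have := fun o => (h o).2
  rw [nrm_co g h, hs, hs, co, xc]
  field_simp [this]

lemma nrm_vf (g : GA1 w Θ) (der : DerF w Θ PP) (h : Ch w β (Θ p)) (v : Pt t a) (x : CI M t) :
    vf (PP β) v (xc w β (Θ p)) x =
      Θ p (β x.2) / Θ p (β (w x.1)) * fderiv ℂ (fun q => co β (Θ q) x) p v := by
  obtain ⟨s, hs⟩ := nrm_ex h
  have := fun o => (h o).2
  rw [← nrm_xc g h hs, ← der β _ v x (nrm_ch g h s), ← fderiv_comp_add_right]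
  simp only [nrm_co g h s]
  rw [fderiv_const_mul (br_diff g.hol h x), hs, hs, _root_.smul_apply, smul_eq_mul]
  field_simp [this]

theorem sNrm : SNrm := by
  intro t a M w Θ PP g der
  refine ⟨fun β p v h H => g.imm p v fun c b hb => ?_, fun β p h => ?_, fun β p q e h => ?_,
    fun β D p v h H => ⟨fun x => ?_, fun o => ?_⟩, fun β p v h => ⟨fun H => ?_, fun H c => ?_⟩⟩
  · exact ((tan_iff (D := 0) g.hol der h).2 (fun x => (H x).symm) c b hb).symm
  · obtain ⟨s, hs⟩ := nrm_ex h
    exact ⟨_, fun i => by simp [inT], nrm_ch g h s, nrm_xc g h hs⟩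
  · obtain ⟨s, rfl⟩ := nrm_inT e
    refine ⟨nrm_ch g h s, funext fun x => ?_⟩
    have := nrm_co g h s p (x.1, w x.1)
    rw [div_self (nrm_u s _), one_mul] at this
    exact this.symm
  · rw [nrm_vf g der h, div_self (h _).2, one_mul]
    exact H _ _ (h _).2
  · rw [nrm_vf g der h, (h o).1, ← mul_assoc, eta, div_mul_div_cancel₀ (h _).2, div_self (h _).2,
      one_mul]
    exact H _ _ (h _).2
  · refine g.immA p v _ (h none).1 (h none).2 fun c hc => ?_
    have := H c
    rwa [nrm_vf g der h, div_self (h _).2, one_mul, hc] at this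
  · have e : ∀ r : ℂ, co β (Θ (p + r • v)) (c, w c) = co β (Θ p) (c, w c) := fun r => by
      obtain ⟨s, e⟩ := nrm_inT (p := p) (q := p + r • v) fun i => by simp [H]
      rw [e, nrm_co g h, div_self (nrm_u s _), one_mul]
    rw [nrm_vf g der h, ← (br_diff g.hol h _).lineDeriv_eq_fderiv, lineDeriv]
    simp [e]

end Pool.Agent.MP_c69980_ag.H43
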